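import Mathlib

set_option autoImplicit false

open SimpleGraph

namespace Pool.Agent.Results.MP_f2857b_co.Counter

/-- Ramsey number: `R` is the red graph of the colouring, its complement the blue graph. -/
noncomputable def ramsey {a b : ℕ} (G : SimpleGraph (Fin a)) (H : SimpleGraph (Fin b)) : ℕ :=
  sInf {N | ∀ R : SimpleGraph (Fin N), G ⊑ R ∨ H ⊑ Rᶜ}

/-- `X` is the vertex set of a red copy of `G` or a blue copy of `H`. -/
def Adm {a b n : ℕ} (G : SimpleGraph (Fin a)) (H : SimpleGraph (Fin b))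
    (R : SimpleGraph (Fin n)) (X : Set (Fin n)) : Prop :=
  (∃ f : G.Copy R, X = Set.range f) ∨ (∃ f : H.Copy Rᶜ, X = Set.range f)

/-- Degree spread of a vertex set: largest minus smallest red degree. -/
noncomputable def spread {n : ℕ} (R : SimpleGraph (Fin n)) (X : Set (Fin n)) : ℕ :=
  sSup ((fun v => (R.neighborSet v).ncard) '' X) - sInf ((fun v => (R.neighborSet v).ncard) '' X)

noncomputable def colSpread {a b n : ℕ} (G : SimpleGraph (Fin a)) (H : SimpleGraph (Fin b))
    (R : SimpleGraph (Fin n)) : ℕ :=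
  sInf (spread R '' {X | Adm G H R X})

noncomputable def Phi {a b : ℕ} (G : SimpleGraph (Fin a)) (H : SimpleGraph (Fin b)) (n : ℕ) : ℕ :=
  sSup (Set.range (fun R : SimpleGraph (Fin n) => colSpread G H R))

abbrev K3 : SimpleGraph (Fin 3) := ⊤

lemma tri {n : ℕ} (R : SimpleGraph (Fin n)) (x y z : Fin n) (h1 : R.Adj x y) (h2 : R.Adj x z)
    (h3 : R.Adj y z) : K3 ⊑ R := by
  refine ⟨⟨⟨![x, y, z], ?_⟩, ?_⟩⟩
  · intro i j hij
    fin_cases i <;> fin_cases j <;> simp_all [R.adj_comm]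
  · intro i j hij
    have := h1.ne; have := h2.ne; have := h3.ne
    fin_cases i <;> fin_cases j <;> simp_all

lemma r6 (R : SimpleGraph (Fin 6)) : K3 ⊑ R ∨ K3 ⊑ Rᶜ := by
  classical
  by_contra hc
  rw [not_or] at hc
  have hR : ∀ x y z, R.Adj x y → R.Adj x z → ¬ R.Adj y z :=
    fun x y z h1 h2 h3 => hc.1 (tri R x y z h1 h2 h3)
  have hB : ∀ x y z : Fin 6, x ≠ y → x ≠ z → y ≠ z → ¬ R.Adj x y → ¬ R.Adj x z → R.Adj y z := by
    intro x y z a b c h1 h2
    by_contra h3
    exact hc.2 (tri Rᶜ x y z ⟨a, h1⟩ ⟨b, h2⟩ ⟨c, h3⟩)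
  have red : ∀ x y z : Fin 6, x ≠ y → x ≠ z → y ≠ z → R.Adj 0 x → R.Adj 0 y → ¬ R.Adj 0 z :=
    fun x y z a b c h1 h2 h3 =>
      hR 0 y z h2 h3 (hB x y z a b c (hR 0 x y h1 h2) (hR 0 x z h1 h3))
  have blue : ∀ x y z : Fin 6, 0 ≠ x → 0 ≠ y → 0 ≠ z → x ≠ y → x ≠ z → y ≠ z →
      ¬ R.Adj 0 x → ¬ R.Adj 0 y → R.Adj 0 z := by
    intro x y z a0 b0 c0 a b c h1 h2
    by_contra h3
    exact hR x y z (hB 0 x y a0 b0 a h1 h2) (hB 0 x z a0 c0 b h1 h3) (hB 0 y z b0 c0 c h2 h3)
  have r123 := red 1 2 3 (by decide) (by decide) (by decide)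
  have r124 := red 1 2 4 (by decide) (by decide) (by decide)
  have r125 := red 1 2 5 (by decide) (by decide) (by decide)
  have r134 := red 1 3 4 (by decide) (by decide) (by decide)
  have r135 := red 1 3 5 (by decide) (by decide) (by decide)
  have r145 := red 1 4 5 (by decide) (by decide) (by decide)
  have r234 := red 2 3 4 (by decide) (by decide) (by decide)
  have r235 := red 2 3 5 (by decide) (by decide) (by decide)
  have r245 := red 2 4 5 (by decide) (by decide) (by decide)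
  have r345 := red 3 4 5 (by decide) (by decide) (by decide)
  have b123 := blue 1 2 3 (by decide) (by decide) (by decide) (by decide) (by decide) (by decide)
  have b124 := blue 1 2 4 (by decide) (by decide) (by decide) (by decide) (by decide) (by decide)
  have b125 := blue 1 2 5 (by decide) (by decide) (by decide) (by decide) (by decide) (by decide)
  have b134 := blue 1 3 4 (by decide) (by decide) (by decide) (by decide) (by decide) (by decide)
  have b135 := blue 1 3 5 (by decide) (by decide) (by decide) (by decide) (by decide) (by decide)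
  have b145 := blue 1 4 5 (by decide) (by decide) (by decide) (by decide) (by decide) (by decide)
  have b234 := blue 2 3 4 (by decide) (by decide) (by decide) (by decide) (by decide) (by decide)
  have b235 := blue 2 3 5 (by decide) (by decide) (by decide) (by decide) (by decide) (by decide)
  have b245 := blue 2 4 5 (by decide) (by decide) (by decide) (by decide) (by decide) (by decide)
  have b345 := blue 3 4 5 (by decide) (by decide) (by decide) (by decide) (by decide) (by decide)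
  by_cases h1 : R.Adj 0 1 <;> by_cases h2 : R.Adj 0 2 <;> by_cases h3 : R.Adj 0 3 <;>
    by_cases h4 : R.Adj 0 4 <;> by_cases h5 : R.Adj 0 5 <;>
    first
    | exact r123 h1 h2 h3 | exact r124 h1 h2 h4 | exact r125 h1 h2 h5 | exact r134 h1 h3 h4
    | exact r135 h1 h3 h5 | exact r145 h1 h4 h5 | exact r234 h2 h3 h4 | exact r235 h2 h3 h5
    | exact r245 h2 h4 h5 | exact r345 h3 h4 h5
    | exact h3 (b123 h1 h2) | exact h4 (b124 h1 h2) | exact h5 (b125 h1 h2)
    | exact h4 (b134 h1 h3) | exact h5 (b135 h1 h3) | exact h5 (b145 h1 h4)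
    | exact h4 (b234 h2 h3) | exact h5 (b235 h2 h3) | exact h5 (b245 h2 h4)
    | exact h5 (b345 h3 h4)

def C (N : ℕ) : SimpleGraph (Fin N) where
  Adj x y := (x.val + 1) % 5 = y.val ∨ (y.val + 1) % 5 = x.val
  symm := ⟨fun _ _ h => h.symm⟩
  loopless := ⟨fun x h => by omega⟩

lemma small (N : ℕ) (hN : N < 6) : ¬ (K3 ⊑ C N ∨ K3 ⊑ (C N)ᶜ) := by
  rintro (⟨⟨f⟩⟩ | ⟨⟨f⟩⟩)
  · have h1 : (C N).Adj (f 0) (f 1) := f.toHom.map_rel (by decide)
    have h2 : (C N).Adj (f 0) (f 2) := f.toHom.map_rel (by decide)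
    have h3 : (C N).Adj (f 1) (f 2) := f.toHom.map_rel (by decide)
    have := (f 0).2; have := (f 1).2; have := (f 2).2
    simp only [C] at h1 h2 h3
    omega
  · have h1 : (C N)ᶜ.Adj (f 0) (f 1) := f.toHom.map_rel (by decide)
    have h2 : (C N)ᶜ.Adj (f 0) (f 2) := f.toHom.map_rel (by decide)
    have h3 : (C N)ᶜ.Adj (f 1) (f 2) := f.toHom.map_rel (by decide)
    have := (f 0).2; have := (f 1).2; have := (f 2).2
    simp only [C, compl_adj, ne_eq, Fin.ext_iff] at h1 h2 h3
    omega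

lemma ramsey33 : ramsey K3 K3 = 6 := by
  apply IsLeast.csInf_eq
  refine ⟨r6, fun N hN => ?_⟩
  by_contra h
  exact small N (by omega) (hN (C N))

lemma deg_ge (R : SimpleGraph (Fin 6)) (f : K3.Copy R) (i : Fin 3) :
    2 ≤ (R.neighborSet (f i)).ncard := by
  have h1 : R.Adj (f i) (f (i + 1)) := f.toHom.map_rel (by revert i; decide)
  have h2 : R.Adj (f i) (f (i + 2)) := f.toHom.map_rel (by clear h1; revert i; decide)
  have h3 : f (i + 1) ≠ f (i + 2) := fun h => absurd (f.injective h) (by clear h h1 h2; revert i; decide)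
  rw [← Set.ncard_pair h3]
  refine Set.ncard_le_ncard ?_
  rintro x (rfl | rfl)
  · exact h1
  · exact h2

lemma deg_add (R : SimpleGraph (Fin 6)) (v : Fin 6) :
    (R.neighborSet v).ncard + (Rᶜ.neighborSet v).ncard ≤ 5 := by
  rw [← Set.ncard_union_eq (by
    rw [Set.disjoint_left]; intro x hx hy; exact hy.2 hx)]
  have : ({v}ᶜ : Set (Fin 6)).ncard = 5 := by
    have := Set.ncard_add_ncard_compl ({v} : Set (Fin 6))
    simp at this
    omega
  rw [← this]
  refine Set.ncard_le_ncard ?_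
  rintro x (hx | hx) (rfl : x = v)
  · exact R.irrefl hx
  · exact Rᶜ.irrefl hx

lemma spread_le (R : SimpleGraph (Fin 6)) (X : Set (Fin 6)) (hX : X.Nonempty) (lo : ℕ)
    (h : ∀ v ∈ X, lo ≤ (R.neighborSet v).ncard ∧ (R.neighborSet v).ncard ≤ lo + 3) :
    spread R X ≤ 3 := by
  unfold spread
  have h1 : sSup ((fun v => (R.neighborSet v).ncard) '' X) ≤ lo + 3 :=
    csSup_le (hX.image _) (by rintro _ ⟨v, hv, rfl⟩; exact (h v hv).2)
  have h2 : lo ≤ sInf ((fun v => (R.neighborSet v).ncard) '' X) :=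
    le_csInf (hX.image _) (by rintro _ ⟨v, hv, rfl⟩; exact (h v hv).1)
  omega

lemma col_le (R : SimpleGraph (Fin 6)) : colSpread K3 K3 R ≤ 3 := by
  rcases r6 R with ⟨⟨f⟩⟩ | ⟨⟨f⟩⟩
  · refine le_trans (Nat.sInf_le ⟨Set.range f, Or.inl ⟨f, rfl⟩, rfl⟩) ?_
    refine spread_le R _ (Set.range_nonempty _) 2 ?_
    rintro _ ⟨i, rfl⟩
    have := deg_ge R f i
    have := deg_add R (f i)
    omega
  · refine le_trans (Nat.sInf_le ⟨Set.range f, Or.inr ⟨f, rfl⟩, rfl⟩) ?_
    refine spread_le R _ (Set.range_nonempty _) 0 ?_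
    rintro _ ⟨i, rfl⟩
    have := deg_ge Rᶜ f i
    have := deg_add R (f i)
    omega

theorem result : ∃ (a b : ℕ) (G : SimpleGraph (Fin a)) (H : SimpleGraph (Fin b)) (n : ℕ),
    (∀ v, ∃ w, G.Adj v w) ∧ (∀ v, ∃ w, H.Adj v w) ∧ G ≠ ⊥ ∧ H ≠ ⊥ ∧
    (∀ R : SimpleGraph (Fin n), G ⊑ R ∨ H ⊑ Rᶜ) ∧
    ramsey G H ≤ n ∧ Phi G H n + 2 < ramsey G H := by
  refine ⟨3, 3, K3, K3, 6, by decide, by decide, ?_, ?_, r6, ramsey33.le, ?_⟩
  · intro h
    have : K3.Adj 0 1 := by decide
    rw [h] at this; exact this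
  · intro h
    have : K3.Adj 0 1 := by decide
    rw [h] at this; exact this
  · rw [ramsey33]
    have : Phi K3 K3 6 ≤ 3 :=
      csSup_le (Set.range_nonempty _) (by rintro _ ⟨R, rfl⟩; exact col_le R)
    omega

end Pool.Agent.Results.MP_f2857b_co.Counter
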